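import Pool.Agent.helper91.HZF.Spec

/-!
# Row hzf:LBM: hazard free circuits for functions which are monotone in some inputs
-/

set_option autoImplicit false

namespace Pool.Agent.HZF

open Finset Pool.Agent.helper38.Neg Pool.Agent.helper55.NT Pool.Agent.LN

/-- The three valued input of the word `x`. -/
def LBM_al {n : ℕ} (u : ℕ) (x : Fin n → Bool) : Fin n → Option Bool :=
  fun i => if (i : ℕ) < u ∧ x i = true then none else some (x i)

theorem LBM_unst {n : ℕ} (u : ℕ) (x : Fin n → Bool) : unst (LBM_al u x) ≤ u := by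
  unfold unst
  have h : (univ.filter fun i : Fin n => LBM_al u x i = none).card ≤ (range u).card := by
    refine Finset.card_le_card_of_injOn (fun i : Fin n => (i : ℕ)) ?_ ?_
    · intro i hi
      have hi2 := (Finset.mem_filter.1 hi).2
      unfold LBM_al at hi2
      have hi3 : (i : ℕ) < u ∧ x i = true := by
        by_contra h
        rw [if_neg h] at hi2
        exact absurd hi2 (by simp)
      exact Finset.mem_coe.2 (Finset.mem_range.2 hi3.1)
    · intro i _ j _ hij
      exact Fin.ext hij
  rwa [Finset.card_range] at h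

theorem LBM_res {n : ℕ} (u : ℕ) (x : Fin n → Bool) : Res (LBM_al u x) x := by
  intro i b hb
  unfold LBM_al at hb
  split_ifs at hb with h
  exact Option.some.inj hb

theorem LBM_resle {n : ℕ} (u : ℕ) (x x' : Fin n → Bool) (h : Res (LBM_al u x) x') :
    x' ≤ x ∧ AgreeFrom u x' x := by
  have key : ∀ i : Fin n, ¬ ((i : ℕ) < u ∧ x i = true) → x' i = x i := by
    intro i hi
    refine h i (x i) ?_
    unfold LBM_al
    rw [if_neg hi]
  constructor
  · intro i
    by_cases hi : (i : ℕ) < u ∧ x i = true
    · rw [hi.2]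
      exact Bool.le_true _
    · exact le_of_eq (key i hi)
  · intro i hi
    exact key i fun h => absurd h.1 (not_lt.2 hi)

theorem LBM_hi1 {n : ℕ} (u : ℕ) (x : Fin n → Bool) (i : Fin n) : hiR (LBM_al u x) i true = x i := by
  unfold hiR LBM_al
  by_cases h : (i : ℕ) < u ∧ x i = true
  · rw [if_pos h, h.2]
    rfl
  · rw [if_neg h]
    cases x i <;> rfl

theorem LBM_hi2 {n : ℕ} (u : ℕ) (x : Fin n → Bool) (i : Fin n) :
    hiR (LBM_al u x) i false = if (i : ℕ) < u then true else !(x i) := by
  unfold hiR LBM_al
  by_cases h : (i : ℕ) < u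
  · rw [if_pos h]
    cases hx : x i
    · rw [if_neg (fun h' => absurd h'.2 (by decide))]
      rfl
    · rw [if_pos ⟨h, rfl⟩]
      rfl
  · rw [if_neg h, if_neg (fun h' => h h'.1)]
    cases x i <;> rfl

theorem LBM_sound (h1 : DV3_stmt) {n s : ℕ} (C : Circuit n s) (α : Fin n → Option Bool) (x : Fin n → Bool) (hx : Res α x)
    (o : Fin (n + s)) (h : val3 C α o = some false) : C.val x o = false := by
  have h2 := (h1 n s C α o).1
  have h3 := (dval_ge C x (fun i => loR α i true) (fun i => loR α i false) (by
    intro i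
    constructor
    · intro hi
      exact hx i true (of_decide_eq_true hi)
    · intro hi
      exact hx i false (of_decide_eq_true hi)) o).2
  apply h3
  rw [h2]
  exact decide_eq_true h

theorem LBM (h1 : DV3_stmt) (h2 : FIU_stmt) : LBM_stmt := by
  intro n s u k C o f hC hH hu hM
  obtain ⟨L, q, hL, hq, hlen, _, hop⟩ := Rel.dual C (fun i (y : Fin (n + n) → Bool) => y (Fin.castAdd n i))
    (fun i (y : Fin (n + n) → Bool) => y (Fin.natAdd n i)) [] 0 SL.nil (by
      rintro g (⟨i, rfl⟩ | ⟨i, rfl⟩)
      · exact Or.inr ⟨_, rfl⟩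
      · exact Or.inr ⟨_, rfl⟩)
  have hq0 : q = 0 := Nat.le_zero.1 hq
  rw [hq0] at hL
  obtain ⟨C', hfree, hC'⟩ := h2 n u L hL
  obtain ⟨j, hj⟩ := hC' _ (hop _ (Or.inl ⟨o, rfl⟩))
  refine ⟨n + 1 + L.length, ?_, C', j, ?_, hfree⟩
  · have h3 : L.length ≤ 2 * s := by
      have h4 := hlen
      rw [List.length_nil, zero_add] at h4
      exact h4
    omega
  · intro x
    have h3 : C'.val x j = decide (val3 C (LBM_al u x) o ≠ some false) := by
      rw [hj x]
      have h4 := congrArg Prod.fst (h1 n s C (LBM_al u x) o).2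
      have h5 : (fun i => hiR (LBM_al u x) i true) = fun i : Fin n =>
          (Fin.append x fun i => if (i : ℕ) < u then true else !(x i)) (Fin.castAdd n i) := by
        funext i
        rw [LBM_hi1, Fin.append_left]
      have h6 : (fun i => hiR (LBM_al u x) i false) = fun i : Fin n =>
          (Fin.append x fun i => if (i : ℕ) < u then true else !(x i)) (Fin.natAdd n i) := by
        funext i
        rw [LBM_hi2, Fin.append_right]
      rw [h5, h6] at h4
      exact h4
    rw [h3]
    have h4 : val3 C (LBM_al u x) o ≠ some false ↔ f x := by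
      constructor
      · intro h5
        by_contra hf
        refine h5 (hH (LBM_al u x) false (le_trans (LBM_unst u x) hu) ?_)
        intro x' hx'
        obtain ⟨hle, hag⟩ := LBM_resle u x x' hx'
        by_contra h6
        exact hf (hM x' x hle hag ((hC x').1 (Bool.eq_true_of_not_eq_false h6)))
      · intro hf h5
        have h6 := LBM_sound h1 C (LBM_al u x) x (LBM_res u x) o h5
        rw [(hC x).2 hf] at h6
        exact absurd h6 (by decide)
    rw [← h4]
    exact decide_eq_true_iff

end Pool.Agent.HZF
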